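import Pool.Agent.Y485.HS.Stm

/-!
Job HSS-DER of project HS (helper485): derivative of a Hajlasz-Sobolev map along the sublevel sets of
its gradient.
-/

set_option autoImplicit false

open MeasureTheory Set Metric Filter Topology
open scoped ENNReal NNReal

namespace Pool.Agent.Y620.HS

open Pool.Agent.Y485.HS

variable {n : ℕ}

/-- The sublevel sets of the gradient. -/
def Am (g : E n → ℝ≥0∞) (m : ℕ) : Set (E n) := {z | z ∈ BB n ∧ g z ≤ m}

lemma Am_meas {g : E n → ℝ≥0∞} (hg : Measurable g) (m : ℕ) : MeasurableSet (Am g m) := by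
  have h1 : MeasurableSet (BB n) := isClosed_closedBall.measurableSet
  exact h1.inter (measurableSet_le hg measurable_const)

lemma Am_lip {F : E n → E n} {g : E n → ℝ≥0∞} (h : Haj (BB n) F g) (m : ℕ) :
    LipschitzOnWith (2 * (m : ℝ≥0)) F (Am g m) := by
  intro x hx y hy
  refine (h x hx.1 y hy.1).trans ?_
  have : g x + g y ≤ ((2 * (m : ℝ≥0) : ℝ≥0) : ℝ≥0∞) := by
    refine (add_le_add hx.2 hy.2).trans ?_
    push_cast
    rw [two_mul]
  rw [mul_comm]
  gcongr

lemma ceil_le_add (a : ℝ≥0∞) : ((⌈a.toReal⌉₊ : ℕ) : ℝ≥0∞) ≤ a + 1 := by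
  by_cases ha : a = ∞
  · simp [ha]
  · have h1 : ((⌈a.toReal⌉₊ : ℕ) : ℝ) ≤ a.toReal + 1 :=
      (Nat.ceil_lt_add_one ENNReal.toReal_nonneg).le
    have h2 : ((⌈a.toReal⌉₊ : ℕ) : ℝ≥0∞) = ENNReal.ofReal ((⌈a.toReal⌉₊ : ℕ) : ℝ) := by
      simp
    rw [h2]
    refine (ENNReal.ofReal_le_ofReal h1).trans ?_
    rw [ENNReal.ofReal_add ENNReal.toReal_nonneg zero_le_one, ENNReal.ofReal_toReal ha,
      ENNReal.ofReal_one]

lemma le_ceil' {a : ℝ≥0∞} (ha : a < ∞) : a ≤ ((⌈a.toReal⌉₊ : ℕ) : ℝ≥0∞) := by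
  have h1 : a.toReal ≤ ((⌈a.toReal⌉₊ : ℕ) : ℝ) := Nat.le_ceil _
  have h2 := ENNReal.ofReal_le_ofReal h1
  rw [ENNReal.ofReal_toReal ha.ne] at h2
  simpa using h2

lemma ceil_le_of {a : ℝ≥0∞} {m : ℕ} (h : a ≤ m) : ⌈a.toReal⌉₊ ≤ m := by
  refine Nat.ceil_le.2 ?_
  have := ENNReal.toReal_mono (by simp) h
  simpa using this

/-- J2b. Existence of the derivative. -/
theorem der : S_UD → S_DER := by
  intro hUD n hn F g hN
  have hext : ∀ m : ℕ, ∃ G : E n → E n,
      LipschitzWith (lipschitzExtensionConstant (E n) * (2 * (m : ℝ≥0))) G ∧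
        EqOn F G (Am g m) := fun m => (Am_lip hN.haj m).extend_finite_dimension
  choose G hGl hGe using hext
  let c : E n → ℕ := fun x => ⌈(g x).toReal⌉₊
  have hc : Measurable c := Nat.measurable_ceil.comp hN.meas.ennreal_toReal
  let D : E n → (E n →L[ℝ] E n) := fun x => fderiv ℝ (G (c x)) x
  have hDm : Measurable D := by
    have h1 : Measurable (fun p : ℕ × E n => fderiv ℝ (G p.1) p.2) :=
      measurable_from_prod_countable_right (fun m => measurable_fderiv ℝ (G m))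
    exact h1.comp (hc.prodMk measurable_id)
  refine ⟨D, hDm, ?_, ?_⟩
  · have hfin : ∀ᵐ x ∂(volume.restrict (BB n)), g x < ∞ := by
      have h1 : ∀ᵐ x ∂(volume.restrict (BB n)), g x ^ n < ∞ :=
        ae_lt_top (hN.meas.pow_const n) hN.fin.ne
      filter_upwards [h1] with x hx
      by_contra hcon
      rw [not_lt, top_le_iff] at hcon
      rw [hcon, ENNReal.top_pow (by omega)] at hx
      exact lt_irrefl _ hx
    have hu : ∀ᵐ x ∂(volume : Measure (E n)), ∀ m : ℕ, x ∈ Am g m →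
        UniqueDiffWithinAt ℝ (Am g m) x := by
      rw [ae_all_iff]
      intro m
      exact (ae_restrict_iff' (Am_meas hN.meas m)).1 (hUD n (Am g m) (Am_meas hN.meas m))
    have hd : ∀ᵐ x ∂(volume : Measure (E n)), ∀ m : ℕ, DifferentiableAt ℝ (G m) x := by
      rw [ae_all_iff]
      intro m
      exact (hGl m).ae_differentiableAt
    have hB : ∀ᵐ x ∂(volume.restrict (BB n)), x ∈ BB n :=
      ae_restrict_mem isClosed_closedBall.measurableSet
    filter_upwards [hfin, ae_restrict_of_ae hu, ae_restrict_of_ae hd, hB] with x hx hux hdx hxB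
    refine ⟨hxB, hx, ?_⟩
    intro m hm
    have hx0 : x ∈ Am g (c x) := ⟨hxB, le_ceil' hx⟩
    have hxm : x ∈ Am g m := ⟨hxB, hm⟩
    have hle : c x ≤ m := ceil_le_of hm
    have hsub : Am g (c x) ⊆ Am g m := fun z hz => ⟨hz.1, hz.2.trans (by exact_mod_cast hle)⟩
    have key : ∀ k : ℕ, x ∈ Am g k → HasFDerivWithinAt F (fderiv ℝ (G k) x) (Am g k) x := by
      intro k hk
      exact (hdx k).hasFDerivAt.hasFDerivWithinAt.congr (fun z hz => hGe k hz) (hGe k hk)
    have e1 := key (c x) hx0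
    have e2 := (key m hxm).mono hsub
    have e3 : fderiv ℝ (G (c x)) x = fderiv ℝ (G m) x := (hux (c x) hx0).eq e1 e2
    change HasFDerivWithinAt F (fderiv ℝ (G (c x)) x) (Am g m) x
    rw [e3]
    exact key m hxm
  · refine ⟨lipschitzExtensionConstant (E n) * 2, Eventually.of_forall fun x => ?_⟩
    have h1 : ‖D x‖ ≤ (lipschitzExtensionConstant (E n) * (2 * (c x : ℝ≥0)) : ℝ≥0) :=
      norm_fderiv_le_of_lipschitz ℝ (hGl (c x))
    have h2 : ‖D x‖ₑ ≤ ((lipschitzExtensionConstant (E n) * (2 * (c x : ℝ≥0)) : ℝ≥0) : ℝ≥0∞) := by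
      rw [← ofReal_norm]
      exact (ENNReal.ofReal_le_ofReal h1).trans (by simp)
    refine h2.trans ?_
    have h3 := ceil_le_add (g x)
    push_cast
    rw [← mul_assoc]
    gcongr

end Pool.Agent.Y620.HS
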