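import Pool.Agent.Y485.HS.Stm

/-!
Job HSS-DS of project HS (helper485): the signed number of preimages of almost every point is one.
-/

set_option autoImplicit false

open MeasureTheory Set Metric Filter Topology
open scoped ENNReal NNReal

namespace Pool.Agent.Y620.HS

open Pool.Agent.Y485.HS

lemma det_zero' {n : ℕ} (hn : 1 ≤ n) : (0 : E n →L[ℝ] E n).det = 0 := by
  have h1 : (0 : E n →L[ℝ] E n).det = LinearMap.det (0 : E n →ₗ[ℝ] E n) := rfl
  rw [h1, LinearMap.det_zero]
  have h2 : Module.finrank ℝ (E n) = n := by simp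
  rw [h2]
  exact zero_pow (by omega)

/-- J5. The signed number of preimages of almost every point is one. -/
theorem ds : S_DER → S_AREA → S_LIM → S_DS := by
  intro hDER hAREA hLIM n hn F g hN
  obtain ⟨D0, hD0⟩ := hDER n hn F g hN
  classical
  have hBm : MeasurableSet (BB n) := isClosed_closedBall.measurableSet
  -- the exceptional set
  have hae0 : ∀ᵐ x ∂(volume : Measure (E n)), x ∈ BB n → ADer g F x (D0 x) :=
    (ae_restrict_iff' hBm).1 hD0.der
  let Z : Set (E n) := toMeasurable volume {x | ¬ (x ∈ BB n → ADer g F x (D0 x))}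
  have hZm : MeasurableSet Z := measurableSet_toMeasurable _ _
  have hZ0 : volume Z = 0 := by
    rw [measure_toMeasurable]
    exact hae0
  have hZae : ∀ᵐ x ∂(volume : Measure (E n)), x ∉ Z := measure_eq_zero_iff_ae_notMem.1 hZ0
  have hZ : ∀ x, x ∉ Z → x ∈ BB n → ADer g F x (D0 x) := by
    intro x hx hxB
    by_contra hcon
    exact hx (subset_toMeasurable _ _ (fun h => hcon (h hxB)))
  let D : E n → (E n →L[ℝ] E n) := Zᶜ.indicator D0
  have hDin : ∀ x, x ∈ Z → D x = 0 := fun x hx =>
    indicator_of_notMem (by simpa using hx) _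
  have hDout : ∀ x, x ∉ Z → D x = D0 x := fun x hx => indicator_of_mem (by simpa using hx) _
  have hDm : Measurable D := hD0.meas.indicator hZm.compl
  have hD : Der F g D := by
    refine ⟨hDm, ?_, ?_⟩
    · filter_upwards [hD0.der, ae_restrict_of_ae hZae] with x h1 h2
      rw [hDout x h2]
      exact h1
    · obtain ⟨C, hC⟩ := hD0.bound
      refine ⟨C, ?_⟩
      filter_upwards [hC, ae_restrict_of_ae hZae] with x h1 h2
      rw [hDout x h2]
      exact h1
  refine ⟨D, hD, ?_⟩
  have h34 : ball (0 : E n) 3 ⊆ BB n :=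
    (ball_subset_closedBall).trans (closedBall_subset_closedBall (by norm_num))
  let A : ℕ → Set (E n) := fun m => {x | x ∈ ball 0 3 ∧ g x ≤ m ∧ x ∉ Z}
  have hAm : ∀ m, MeasurableSet (A m) := fun m =>
    isOpen_ball.measurableSet.inter
      ((measurableSet_le hN.meas measurable_const).inter hZm.compl)
  have hAmono : Monotone A := by
    intro a b hab x hx
    exact ⟨hx.1, hx.2.1.trans (by exact_mod_cast hab), hx.2.2⟩
  have hAder : ∀ m, ∀ x ∈ A m, HasFDerivWithinAt F (D x) (A m) x := by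
    intro m x hx
    rw [hDout x hx.2.2]
    exact ((hZ x hx.2.2 (h34 hx.1)).2.2 m hx.2.1).mono (fun z hz => ⟨h34 hz.1, hz.2.1⟩)
  have hUsub : (⋃ m, A m) ⊆ ball 0 3 := iUnion_subset fun m x hx => hx.1
  obtain ⟨hdet, hdeg⟩ := hLIM n hn F g D hN hD
  have hfin : ∫⁻ x in ⋃ m, A m, ‖(D x).det‖ₑ < ∞ :=
    (lintegral_mono_set (hUsub.trans h34)).trans_lt hdet
  obtain ⟨d, hdint, hdφ, hdN⟩ := hAREA n F D A hAm hAmono hDm hAder hfin
  -- the union is almost all of the ball
  have hUae : (⋃ m, A m) =ᵐ[volume] ball (0 : E n) 3 := by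
    filter_upwards [hae0, hZae] with x h1 h2
    apply propext
    constructor
    · exact fun hx => hUsub hx
    · intro hx
      obtain ⟨m, hm⟩ := ENNReal.exists_nat_gt (h1 (h34 hx)).2.1.ne
      exact mem_iUnion.2 ⟨m, hx, hm.le, h2⟩
  have hone : ∀ᵐ y ∂(volume : Measure (E n)), y ∈ ball (0 : E n) 2 → (d y : ℝ) - 1 = 0 := by
    have hli : LocallyIntegrable (fun y => (d y : ℝ)) (volume : Measure (E n)) :=
      hdint.locallyIntegrable
    have hl1 : LocallyIntegrable (fun _ : E n => (1 : ℝ)) (volume : Measure (E n)) :=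
      locallyIntegrable_const 1
    refine isOpen_ball.ae_eq_zero_of_integral_contDiff_smul_eq_zero
      ((hli.sub hl1).locallyIntegrableOn _) ?_
    intro φ hφ hφc hφs
    have hφcont : Continuous φ := hφ.continuous
    have hφ0 : ∀ x : E n, 2 ≤ ‖x‖ → φ x = 0 := by
      intro x hx
      by_contra hne
      have : x ∈ ball (0 : E n) 2 := hφs (subset_tsupport _ hne)
      rw [mem_ball_zero_iff] at this
      linarith
    have e1 := hdφ φ hφcont hφc
    have e2 := hdeg φ hφcont hφ0
    have e3 : ∫ x in ⋃ m, A m, φ (F x) * (D x).det = ∫ x in ball 0 3, φ (F x) * (D x).det :=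
      setIntegral_congr_set hUae
    have i1 : Integrable (fun x => φ x • (d x : ℝ)) (volume : Measure (E n)) :=
      hli.integrable_smul_left_of_hasCompactSupport hφcont hφc
    have i2 : Integrable (fun x => φ x • (1 : ℝ)) (volume : Measure (E n)) :=
      hl1.integrable_smul_left_of_hasCompactSupport hφcont hφc
    have e4 : ∫ x, φ x • ((d x : ℝ) - 1) = (∫ x, φ x • (d x : ℝ)) - ∫ x, φ x • (1 : ℝ) := by
      rw [← integral_sub i1 i2]
      refine integral_congr_ae (Eventually.of_forall fun x => ?_)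
      simp only [smul_eq_mul]
      ring
    simp only [smul_eq_mul, mul_one] at e4 ⊢
    calc ∫ x, φ x * ((fun y => (d y : ℝ)) x - (fun _ => (1 : ℝ)) x)
        = ∫ x, φ x * ((d x : ℝ) - 1) := rfl
      _ = _ := e4
      _ = 0 := by rw [← e1, e3, e2, sub_self]
  intro N hNull
  have h1 := hdN N hNull
  rw [ae_restrict_iff' isOpen_ball.measurableSet]
  filter_upwards [h1, hone] with y hy1 hy2 hyb
  obtain ⟨P, hP, hPs⟩ := hy1
  refine ⟨P, ?_, ?_⟩
  · intro x
    rw [hP]
    constructor
    · rintro ⟨hxU, hxN, hxd, hxF⟩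
      obtain ⟨m, hm⟩ := mem_iUnion.1 hxU
      refine ⟨hm.1, hxN, ?_, hxd, hxF⟩
      rw [hDout x hm.2.2]
      exact hZ x hm.2.2 (h34 hm.1)
    · rintro ⟨hxb, hxN, hxA, hxd, hxF⟩
      have hxZ : x ∉ Z := by
        intro hxZ
        apply hxd
        rw [hDin x hxZ]
        exact det_zero' hn
      obtain ⟨m, hm⟩ := ENNReal.exists_nat_gt hxA.2.1.ne
      exact ⟨mem_iUnion.2 ⟨m, hxb, hm.le, hxZ⟩, hxN, hxd, hxF⟩
  · rw [← hPs]
    have := hy2 hyb
    have h3 : (d y : ℝ) = 1 := by linarith
    exact_mod_cast h3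

end Pool.Agent.Y620.HS
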